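import Pool.Agent.H409_AG.PartA
import Pool.Agent.H409_AG.PartB
import Pool.Agent.H409_AG.PartC
import Pool.Agent.Helper636_AG.Borel

/-!
# It is consistent with ZFC that a Borel group on the reals is aleph_omega-free and not free

The four parts of the theorem are theorems of ZFC. The forcing relation is the one of
`Pool.Agent.Helper669.Forcing`: a sentence about the extension is the set of the conditions which
force it, and a name for a subset of a ground model set `X` is a map from `X` to sets of
conditions. The other definitions are in `Pool.Agent.H409_AG.Defs`.

Starting with any model of ZFC, (1) gives an extension with the continuum hypothesis; (2) gives a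
further extension with the continuum hypothesis and a ladder system on a stationary subset of
`ℵ_{ω+1}` which is free on each bounded part (in the sense of `IsLadder`; the cardinals up to
`ℵ_{ω+1}` are not changed); (3) gives a further extension, with the same cardinals, in which some
closed graph on the Baire space has an orientation with countable outdegrees on each family of
fewer than `ℵ_ω` points, but not on all families; and by (4) there is in this model a group on the
set of all real numbers, with a Borel multiplication, all of whose subgroups of size less than
`ℵ_ω` are free, and which is not free.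
-/

set_option autoImplicit false

namespace Pool.Agent.Results.MP_186633_lc.BorelNotFree

open Cardinal Pool.Agent.Helper669.Forcing Pool.Agent.H409_AG

/-- The consistency with ZFC of a Borel group on the reals which is `ℵ_ω`-free but not free.
(1) The continuum hypothesis can be forced. (2) Under the continuum hypothesis one can force the
continuum hypothesis together with a ladder system, preserving the cardinals up to `ℵ_{ω+1}`.
(3) Under the continuum hypothesis, if there is a ladder system, one can force the existence of an
incompact closed graph, preserving cardinals. (4) If there is an incompact closed graph, then some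
group with underlying set `ℝ` and Borel multiplication is `ℵ_ω`-free and not free. -/
theorem result :
    (∃ (Q : Type) (_ : Preorder Q), Nonempty Q ∧ ∀ q : Q,
      q ∈ ContinuumLe Q (ℵ₁ : Cardinal.{0}).out) ∧
    (ContinuumHyp → ∃ (Q : Type) (_ : Preorder Q), Nonempty Q ∧ ∀ q : Q,
      q ∈ ContinuumLe Q (ℵ₁ : Cardinal.{0}).out ∧
        q ∈ CardinalsPreservedTo Q (ℵ_ (Ordinal.omega0 + 1)) ∧ q ∈ LadderN Q) ∧
    (ContinuumHyp → Ladder → ∃ (Q : Type) (_ : Preorder Q), Nonempty Q ∧ ∀ q : Q,
      q ∈ CardinalsPreserved.{0, 0} Q ∧ q ∈ IncompactN Q) ∧
    (Incompact → ∃ G : Group ℝ, MeasurableSet {p : ℝ × ℝ × ℝ | G.mul p.1 p.2.1 = p.2.2} ∧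
      (∀ H : Subgroup ℝ, #H < ℵ_ Ordinal.omega0 → IsFreeGroup H) ∧ ¬ IsFreeGroup ℝ) :=
  ⟨ch_forced, ladder_forced, graph_forced, Pool.Agent.Helper636_AG.borel_group_of_incompact⟩

end Pool.Agent.Results.MP_186633_lc.BorelNotFree
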